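import Pool.Agent.Helper24_ABA.Spur

/-! # TIP0, case (a): the tip is moved (MP_d857f1_al, part B) -/

set_option autoImplicit false

namespace Pool.Agent.ABA.B.H14

open Knd Pool.Agent.ABA Pool.Agent.ABA.B Pool.Agent.ABA.B.TG Pool.Agent.ABA.B.H17
  Pool.Agent.ABA.B.H89 Pool.Agent.ABA.B.H49 Pool.Agent.ABA.B.H52 Pool.Agent.ABA.B.H24

/-! ## walks -/

section walks

variable {V E : Type} {S : TG V E}

theorem wk_cons {w : List E} {a b a' : E} (h : Wk S w a b) (ha : S.Cor a' a) :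
    Wk S (a' :: w) a' b := by
  obtain ⟨h1, h2, h3⟩ := h
  cases w with
  | nil => simp at h2
  | cons x w =>
    simp only [List.head?_cons, Option.some.injEq] at h2
    subst h2
    exact ⟨by simp [ha, h1], rfl, by rw [List.getLast?_cons_cons]; exact h3⟩

theorem wk_snoc {w : List E} {a b b' : E} (h : Wk S w a b) (hb : S.Cor b b') :
    Wk S (w ++ [b']) a b' := by
  obtain ⟨h1, h2, h3⟩ := h
  refine ⟨?_, ?_, by simp⟩
  · rw [List.isChain_append]
    refine ⟨h1, by simp, ?_⟩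
    intro x hx y hy
    rw [h3] at hx
    simp only [Option.mem_def, Option.some.injEq, List.head?_cons] at hx hy
    rw [← hx, ← hy]
    exact hb
  · cases w with
    | nil => simp at h2
    | cons x w => simpa using h2

open Classical in
theorem wk_extL {w : List E} {a b a' : E} (h : Wk S w a b) (ha : a' = a ∨ S.Cor a' a) :
    ∃ w', Wk S w' a' b ∧ w'.length ≤ w.length + (if a' = a then 0 else 1) := by
  by_cases hc : a' = a
  · rw [hc, if_pos rfl]
    exact ⟨w, h, le_rfl⟩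
  · rw [if_neg hc]
    exact ⟨a' :: w, wk_cons h (ha.resolve_left hc), by simp⟩

open Classical in
theorem wk_extR {w : List E} {a b b' : E} (h : Wk S w a b) (hb : b' = b ∨ S.Cor b' b) :
    ∃ w', Wk S w' a b' ∧ w'.length ≤ w.length + (if b' = b then 0 else 1) := by
  by_cases hc : b' = b
  · rw [hc, if_pos rfl]
    exact ⟨w, h, le_rfl⟩
  · rw [if_neg hc]
    exact ⟨w ++ [b'], wk_snoc h (cor_sym (hb.resolve_left hc)), by simp⟩

end walks

variable {G : Type} [Group G] {A B : Subgroup G} {g : G}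
variable {hg : ¬ IsABA A B g} {hgeo : Geo A B} {hι : Function.Injective (Pι A B g)}

/-- core form -/
theorem tip0a_core (hA : ∀ x ∈ A, ∀ y ∈ A, x * y = y * x)
    (hPr : PrjStmt hg hgeo hι) (hEd : EdgeStmt hg hgeo hι) (hNs : NsegStmt hg hgeo hι)
    {F Q : Car A B g} {z : PP A B g} {x : XV A B g} {e₁ e₂ : XE A B g} {n : ℕ}
    (hF : IsPl F) (hQ : IsPl Q) (hn : 1 ≤ n) (hd : dCC hg hgeo hι F Q = n) (hz : z • F = F)
    (hx : On F x) (hdx : dVC hg hgeo hι x Q = n)
    (hdx' : dVC hg hgeo hι (z • x) Q = n) (hxx : z • x ≠ x)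
    (h1 : Prj hg hgeo hι Q x e₂) (h2 : Prj hg hgeo hι Q (z • x) (actE z e₁))
    {w : List (XE A B g)} (hw : Wk (XX hg hgeo hι) w e₁ e₂) :
    ∃ f f', Prj hg hgeo hι Q x f ∧ Prj hg hgeo hι (z⁻¹ • Q) x f' ∧
      (∀ μ, car μ = F → (XX hg hgeo hι).Cor e₂ μ → f = e₂) ∧
      (∀ μ, car μ = F → (XX hg hgeo hι).Cor e₁ μ → f' = e₁) ∧
      (f = e₂ → f' = e₁ → 5 ≤ w.length) ∧ (f = e₂ ∨ f' = e₁ → 4 ≤ w.length) ∧
      3 ≤ w.length := by
  have hout : ∀ y : XV A B g, On F y → n ≤ dVC hg hgeo hι y Q := by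
    intro y hy
    have := dCC_le_dVC (hg := hg) (hgeo := hgeo) (hι := hι) (c' := Q) hy
    omega
  -- letters of shortest paths are not in `F`
  have hcar : ∀ (y : XV A B g) (f : XE A B g), dVC hg hgeo hι y Q = n → Prj hg hgeo hι Q y f →
      car f ≠ F := by
    intro y f hy hf hcf
    have h3 := On_tgt f
    rw [hcf] at h3
    have h4 := hout _ h3
    have h5 := hf.2
    omega
  have hx' : On F (z • x) := by
    have := On.smul hx z
    rwa [hz] at this
  obtain ⟨h, hch, hs, ht⟩ := hNs F Q x (z • x) n hF hQ hn hd hx hx' hdx hdx' (Ne.symm hxx)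
  obtain ⟨f, f1, hT, hpf, hpf1⟩ := hEd Q h hQ (by rw [hs, ht, hdx, hdx']) (by rw [hs, hdx]; exact hn)
  rw [hs] at hpf
  rw [ht] at hpf1
  obtain ⟨f', rfl⟩ : ∃ f', f1 = xinv f' := ⟨xinv f1, (xii f1).symm⟩
  rw [xii] at hpf1
  have hFh : (kndE h).isH = true := isH_pl hF hch
  -- pulled back letters
  set m' := actE z⁻¹ (xinv h) with hm'
  set k := actE z⁻¹ f' with hk
  have hprk : Prj hg hgeo hι (z⁻¹ • Q) x k := by
    have := prj_act z⁻¹ hpf1
    rwa [inv_smul_smul] at this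
  have hcm : car m' = F := by
    have : car (xinv h) = F := by rw [car_inv, hch]
    rw [hm', car_act, this, inv_smul_eq_iff, hz]
  have hck : car k ≠ F := by
    have h3 := hcar _ _ hdx' hpf1
    rw [hk, car_act]
    intro h4
    rw [inv_smul_eq_iff, hz] at h4
    exact h3 h4
  have hce1 : car e₁ ≠ F := by
    have h3 := hcar _ _ hdx' h2
    rw [car_act] at h3
    intro h4
    rw [h4, hz] at h3
    exact h3 rfl
  have hce2 : car e₂ ≠ F := hcar _ _ hdx h1
  have hcf : car f ≠ F := hcar _ _ hdx hpf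
  -- corners
  have c1 : (XX hg hgeo hι).Cor h f := ⟨_, hT⟩
  have c4 : (XX hg hgeo hι).Cor k m' := by
    apply cor_act
    have h3 := (XX hg hgeo hι).tri_rot ((XX hg hgeo hι).tri_swap hT)
    have h4 : (XX hg hgeo hι).inv (xinv f') = f' := xii _
    rw [h4] at h3
    exact cor_sym ⟨_, h3⟩
  have hkn : kndE m' = kinv (kndE h) := by rw [hm', kndE_act, kndE_xinv]
  have hFm : (kndE m').isH = true := isH_pl hF hcm
  have hne : m' ≠ h := by
    intro h3
    have h4 := congrArg kndE h3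
    rw [hkn] at h4
    revert h4
    generalize kndE h = κ
    cases κ <;> decide
  have hkk : kndE h = kinv (kndE m') := by
    rw [hkn]
    generalize kndE h = κ
    cases κ <;> rfl
  have hfe : f = e₂ ∨ (XX hg hgeo hι).Cor f e₂ := hPr Q x _ _ hQ hpf h1
  have hek : k = e₁ ∨ (XX hg hgeo hι).Cor k e₁ := by
    rcases hPr Q _ _ _ hQ h2 hpf1 with h3 | h3
    · left
      rw [hk, ← h3, act_back]
    · right
      have := cor_act z⁻¹ h3
      rw [act_back] at this
      exact cor_sym this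
  -- the long walk
  obtain ⟨w1, hw1, hl1⟩ := wk_extL hw hek
  obtain ⟨w2, hw2, hl2⟩ := wk_extR hw1 hfe
  have hlong : 7 ≤ w2.length + 2 := by
    have hv : Wk (XX hg hgeo hι) (m' :: (w2 ++ [h])) m' h :=
      wk_cons (wk_snoc hw2 (cor_sym c1)) (cor_sym c4)
    obtain ⟨-, g2, g3⟩ := hw2
    have hv1 : TFst (m' :: (w2 ++ [h])) := by
      cases w2 with
      | nil => simp at g2
      | cons y w2 =>
        simp only [List.head?_cons, Option.some.injEq] at g2
        exact ⟨m', y, w2 ++ [h], rfl, by rw [g2, hcm]; exact hck⟩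
    have hv2 : TLst (m' :: (w2 ++ [h])) := by
      obtain ⟨w3, hw3⟩ : ∃ w3, w2 = w3 ++ [f] := by
        rcases List.eq_nil_or_concat w2 with h5 | ⟨w3, y, h5⟩
        · rw [h5] at g2; simp at g2
        · rw [List.concat_eq_append] at h5
          rw [h5] at g3
          simp only [List.getLast?_append, List.getLast?_singleton, Option.some_or,
            Option.some.injEq] at g3
          exact ⟨w3, by rw [h5, g3]⟩
      exact ⟨m' :: w3, f, h, by rw [hw3]; simp, by rw [hch]; exact hcf⟩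
    have := (tw_ G A B g hg hgeo hι hA _ m' h hv hv1 hv2 hFm (by rw [hch, hcm]) hne).2
      (Or.inl hkk)
    simpa using this
  refine ⟨f, k, hpf, hprk, ?_, ?_, ?_, ?_, ?_⟩
  · intro μ hμ hcor
    by_contra hcon
    have hc := hfe.resolve_left hcon
    by_cases hm : h = μ
    · rw [← hm] at hcor
      exact no3 (hsysX (hg := hg) (hgeo := hgeo) (hι := hι) hA) c1 hc hcor
    · have := (tw_ G A B g hg hgeo hι hA [h, f, e₂, μ] h μ ⟨by simp [c1, hc, hcor], by simp, by simp⟩
        ⟨h, f, [e₂, μ], rfl, by rw [hch]; exact hcf⟩ ⟨[h, f], e₂, μ, rfl, by rw [hμ]; exact hce2⟩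
        hFh (by rw [hch, hμ]) hm).1
      simp at this
  · intro μ hμ hcor
    by_contra hcon
    have hc := hek.resolve_left hcon
    by_cases hm : m' = μ
    · rw [← hm] at hcor
      exact no3 (hsysX (hg := hg) (hgeo := hgeo) (hι := hι) hA) (cor_sym c4) hc hcor
    · have := (tw_ G A B g hg hgeo hι hA [m', k, e₁, μ] m' μ
        ⟨by simp [cor_sym c4, hc, hcor], by simp, by simp⟩
        ⟨m', k, [e₁, μ], rfl, by rw [hcm]; exact hck⟩ ⟨[m', k], e₁, μ, rfl, by rw [hμ]; exact hce1⟩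
        hFm (by rw [hcm, hμ]) hm).1
      simp at this
  · intro h5 h6
    rw [if_pos h6] at hl1
    rw [if_pos h5] at hl2
    omega
  · intro h5
    rcases h5 with h5 | h5
    · rw [if_pos h5] at hl2
      have : w1.length ≤ w.length + 1 := by
        refine hl1.trans ?_
        split <;> omega
      omega
    · rw [if_pos h5] at hl1
      have : w2.length ≤ w1.length + 1 := by
        refine hl2.trans ?_
        split <;> omega
      omega
  · have h5 : w1.length ≤ w.length + 1 := by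
      refine hl1.trans ?_
      split <;> omega
    have h6 : w2.length ≤ w1.length + 1 := by
      refine hl2.trans ?_
      split <;> omega
    omega

/-- the walk at a tip with empty side -/
theorem tip_walk {c : ℕ → Car A B g} {C : Cfg (XV A B g) (XE A B g)} {b e : ℕ}
    {W : ℕ → List (XE A B g)} (hP : H52.Pc hg hgeo hι c C b e W) {t : ℕ}
    (hb : b < C.o (t + 1)) (he : C.m (t + 1) < e) (hs : C.s (t + 1) = []) :
    Wk (XX hg hgeo hι) (W (C.o (t + 1))) (eM C (t + 1)) (eP C (t + 1)) := by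
  have hm : C.m (t + 1) = C.o (t + 1) := C.m_eq_o.2 hs
  obtain ⟨f1, f2, l, r, -, -, hw, -⟩ := hP.edg (C.o (t + 1) - 1) (by omega) (by omega)
  obtain ⟨f1', f2', l', r', -, hw', -, -⟩ := hP.edg (C.o (t + 1)) (by omega) (by omega)
  rw [show C.o (t + 1) - 1 + 1 = C.o (t + 1) by omega] at hw
  refine ⟨hP.chain _ (by omega) (by omega), ?_, ?_⟩
  · rw [hw]; rfl
  · rw [hw', eP, hm]; simp

variable (hg hgeo hι)

/-- TIP0, case (a) -/
def Tip0aStmt : Prop := ∀ (c : ℕ → Car A B g) (ρ : ℕ → PP A B g) (n : ℕ)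
  (C : Cfg (XV A B g) (XE A B g)) (b e : ℕ) (W : ℕ → List (XE A B g)),
  Chn hg hgeo hι c ρ n → Ok hg hgeo hι c n C → Nb C → H52.Pc hg hgeo hι c C b e W → ∀ t,
  b < C.o (t + 1) → C.m (t + 1) < e → C.s (t + 1) = [] →
  ρ (t + 1) • C.xm (t + 1) ≠ C.xm (t + 1) → TipBd hg hgeo hι c ρ C W (t + 1)

variable {hg hgeo hι}

/-- TIP0, case (a) -/
theorem tip0a (hA : ∀ x ∈ A, ∀ y ∈ A, x * y = y * x)
    (hPr : PrjStmt hg hgeo hι) (hEd : EdgeStmt hg hgeo hι) (hNs : NsegStmt hg hgeo hι) :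
    Tip0aStmt hg hgeo hι := by
  intro c ρ n C b e W hCh hOk hNb hP t hb he hs hxx
  have hn := hCh.ps
  have hm : C.m (t + 1) = C.o (t + 1) := C.m_eq_o.2 hs
  have hwk := tip_walk hP hb he hs
  have h1 := eP_prj hCh hOk (t + 1)
  have h2 := eM_prj hCh hOk t
  have hxp : C.xm (t + 1) = C.xp (t + 1) := by
    have h3 := (hOk.side (t + 1)).1
    rw [hs] at h3
    exact h3
  have h3 := prj_act (ρ (t + 1)) h2
  rw [hCh.nx t] at h3
  rw [← hxp] at h1
  have ho1 := hOk.o_succ t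
  have ho2 := hOk.o_succ (t + 1)
  have d1 := (leg_dist hCh hOk (i := t + 1) (t := C.m (t + 1)) le_rfl (by omega)).1
  have d2 := (leg_dist hCh hOk (i := t) (t := C.o (t + 1)) (by omega) le_rfl).2
  rw [hOk.src_m hn, ← hxp] at d1
  rw [hOk.src_o hn] at d2
  obtain ⟨f, f', p1, p2, q1, q2, l1, l2, l3⟩ := tip0a_core hA hPr hEd hNs (hCh.pl (t + 1))
    (hCh.pl (t + 2)) hn (hCh.ds (t + 1)) (hCh.st (t + 1)) (hOk.om (t + 1))
    (by show dVC hg hgeo hι _ (c (t + 1 + 1)) = n
        rw [d1]; omega)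
    (by rw [← hCh.nx t, dVC_smul, d2]; omega) hxx h1 h3 hwk
  have hTp : Tp C W (t + 1) = val (W (C.o (t + 1))) := by
    unfold Tp
    rw [hm, Finset.Icc_self, Finset.sum_singleton]
  have hv : val (W (C.o (t + 1))) = 4 - (W (C.o (t + 1))).length := rfl
  have hz : (ρ (t + 1))⁻¹ • c (t + 2) = c (t + 1 + 5) := by
    rw [show t + 1 + 5 = t + 6 by omega, hCh.pc t, ← hCh.nx t, inv_smul_smul]
  have tm : tcm hg hgeo hι c C (t + 1) → f' = eM C (t + 1) := fun ⟨μ, h5, h6⟩ => q2 μ h5 h6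
  have tp : tcp hg hgeo hι c C (t + 1) → f = eP C (t + 1) := fun ⟨μ, h5, h6⟩ => q1 μ h5 h6
  rw [TipBd, hTp, hv]
  refine ⟨?_, ?_, ?_, ?_, ?_⟩
  · intro h5 h6
    have := l1 (tp h6) (tm h5)
    omega
  · intro h5
    have := l2 (h5.symm.imp tp tm)
    omega
  · omega
  · intro h5
    omega
  · intro h5
    right
    have h6 : ¬ (f = eP C (t + 1) ∨ f' = eM C (t + 1)) := by
      intro h7
      have := l2 h7
      omega
    rw [not_or] at h6
    rw [hz] at p2
    refine ⟨⟨f', h6.2, p2⟩, ⟨f, h6.1, ?_⟩⟩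
    rw [← hxp]
    exact p1

end Pool.Agent.ABA.B.H14
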